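import Pool.Agent.H24.SCG2.Stmts1

/-! Project SCG2: the monomial strings (rows MA1, MB1, TA, TB). -/

namespace Pool.Agent.H54.SCG2

open Matrix Pool.SCG

variable {F : Type*} [Field F]

/-- product with an inner element, explicit matrix -/
theorem mi {x y : Cor F} {s : Bool} {A B C : M3 F} (hx : Is x s A) (hy : Is y false B)
    (h : A * B = C) : Is (x * y) s C := h ▸ hx.mul_inner hy

/-- product with an outer element, explicit matrix -/
theorem mo {x y : Cor F} {s : Bool} {A A' B C : M3 F} (hx : Is x s A) (hy : Is y true B)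
    (h : A * A' = 1) (h' : A'.transpose * B = C) : Is (x * y) (!s) C :=
  h' ▸ hx.mul_outer' hy h

theorem Sm_sq : Sm F * Sm F = 1 := by
  ext i j
  fin_cases i <;> fin_cases j <;> simp [Sm, Matrix.mul_apply, Fin.sum_univ_three]

theorem Jm_sq : Jm F * Jm F = 1 := by
  ext i j
  fin_cases i <;> fin_cases j <;> simp [Jm, Matrix.mul_apply, Fin.sum_univ_three]

theorem Sm_tr : (Sm F).transpose = Sm F := by
  ext i j
  fin_cases i <;> fin_cases j <;> simp [Sm]

theorem Jm_tr : (Jm F).transpose = Jm F := by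
  ext i j
  fin_cases i <;> fin_cases j <;> simp [Jm]

theorem dg111 : dg (1 : F) 1 1 = 1 := dg_one

theorem ma1_thm : MA1Stmt := by
  intro F _ X a b c d k hb hc hd hk ha hbI hcI hdI
  have e1 : dg (k⁻¹ ^ 2) k k * dg (k ^ 2) k⁻¹ k⁻¹ = 1 := by
    rw [dg_mul, ← dg_one]
    congr 1
    · rw [inv_pow, inv_mul_cancel₀ (pow_ne_zero 2 hk)]
    · rw [mul_inv_cancel₀ hk]
    · rw [mul_inv_cancel₀ hk]
  -- b * c
  have h1 : Is (b * c) false !![0, k ^ 2, 0; k⁻¹, 0, 0; 0, 0, -k⁻¹] := by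
    have := mo hbI hcI e1 (C := !![0, k ^ 2, 0; k⁻¹, 0, 0; 0, 0, -k⁻¹]) (by
      ext i j
      fin_cases i <;> fin_cases j <;> simp [dg, Sm, Matrix.mul_apply, Fin.sum_univ_three])
    simpa using this
  have h2 : Is (b * c * (b * c)) false (dg k k (k⁻¹ ^ 2)) := by
    refine mi h1 h1 ?_
    ext i j
    fin_cases i <;> fin_cases j <;> simp [dg, Matrix.mul_apply, Fin.sum_univ_three] <;>
      field_simp
  have h3 : Is (c * d) true !![0, 0, 1; -1, 0, 0; 0, -1, 0] := by
    refine mi hcI hdI ?_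
    ext i j
    fin_cases i <;> fin_cases j <;> simp [Sm, Jm, Matrix.mul_apply, Fin.sum_univ_three]
  have h4 : Is (c * d * (b * c * (b * c))) true
      !![0, 0, k⁻¹ ^ 2; -k, 0, 0; 0, -k, 0] := by
    refine mi h3 h2 ?_
    ext i j
    fin_cases i <;> fin_cases j <;> simp [dg, Matrix.mul_apply, Fin.sum_univ_three]
  have h5 : Is (d * c) true !![0, -1, 0; 0, 0, -1; 1, 0, 0] := by
    have := mo hdI hcI Jm_sq (C := !![0, -1, 0; 0, 0, -1; 1, 0, 0]) (by
      ext i j
      fin_cases i <;> fin_cases j <;> simp [Sm, Jm, Matrix.mul_apply, Fin.sum_univ_three])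
    simpa using this
  have h6 : Is (c * d * (b * c * (b * c)) * (d * c)) false (dg (k ^ 2) k⁻¹ k⁻¹) := by
    have := mo h4 h5 (A' := !![0, -k⁻¹, 0; 0, 0, -k⁻¹; k ^ 2, 0, 0])
      (C := dg (k ^ 2) k⁻¹ k⁻¹) (by
      ext i j
      fin_cases i <;> fin_cases j <;> simp [Matrix.mul_apply, Fin.sum_univ_three, hk]) (by
      ext i j
      fin_cases i <;> fin_cases j <;> simp [dg, Matrix.mul_apply, Fin.sum_univ_three])
    simpa using this
  have h7 : Is (b * (c * d * (b * c * (b * c)) * (d * c))) true (dg 1 1 1) := by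
    refine mi hbI h6 ?_
    rw [e1, dg_one]
  rw [ha.ext h7]
  exact X.mul_mem hb (X.mul_mem (X.mul_mem (X.mul_mem hc hd)
    (X.mul_mem (X.mul_mem hb hc) (X.mul_mem hb hc))) (X.mul_mem hd hc))

theorem mb1_thm : MB1Stmt := by
  intro F _ X a b c d k hb hc hd hk ha hbI hcI hdI
  have h1 : Is (b * c) true !![0, 1, 0; k⁻¹, 0, 0; 0, 0, -k] := by
    refine mi hbI hcI ?_
    ext i j
    fin_cases i <;> fin_cases j <;> simp [dg, Sm, Matrix.mul_apply, Fin.sum_univ_three]
  have h2 : Is (b * c * (b * c)) false (dg k⁻¹ k 1) := by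
    have := mo h1 h1 (A' := !![0, k, 0; 1, 0, 0; 0, 0, -k⁻¹]) (C := dg k⁻¹ k 1) (by
      ext i j
      fin_cases i <;> fin_cases j <;> simp [Matrix.mul_apply, Fin.sum_univ_three, hk]) (by
      ext i j
      fin_cases i <;> fin_cases j <;> simp [dg, Matrix.mul_apply, Fin.sum_univ_three, hk])
    simpa using this
  have h3 : Is (d * (b * c * (b * c))) true !![-k⁻¹, 0, 0; 0, 0, 1; 0, k, 0] := by
    refine mi hdI h2 ?_
    ext i j
    fin_cases i <;> fin_cases j <;> simp [dg, Jm, Matrix.mul_apply, Fin.sum_univ_three]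
  have h4 : Is (d * (b * c * (b * c)) * d) false (dg k 1 k⁻¹) := by
    have := mo h3 hdI (A' := !![-k, 0, 0; 0, 0, k⁻¹; 0, 1, 0]) (C := dg k 1 k⁻¹) (by
      ext i j
      fin_cases i <;> fin_cases j <;> simp [Matrix.mul_apply, Fin.sum_univ_three, hk]) (by
      ext i j
      fin_cases i <;> fin_cases j <;> simp [dg, Jm, Matrix.mul_apply, Fin.sum_univ_three])
    simpa using this
  have h5 : Is (b * c * (b * c) * (d * (b * c * (b * c)) * d)) false (dg 1 k k⁻¹) := by
    refine mi h2 h4 ?_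
    rw [dg_mul]
    congr 1
    · rw [inv_mul_cancel₀ hk]
    · rw [mul_one]
    · rw [one_mul]
  have h6 : Is (b * (b * c * (b * c) * (d * (b * c * (b * c)) * d))) true (dg 1 1 1) := by
    refine mi hbI h5 ?_
    rw [dg_mul]
    congr 1
    · rw [mul_one]
    · rw [inv_mul_cancel₀ hk]
    · rw [mul_inv_cancel₀ hk]
  rw [ha.ext h6]
  have hg := X.mul_mem (X.mul_mem hb hc) (X.mul_mem hb hc)
  exact X.mul_mem hb (X.mul_mem hg (X.mul_mem (X.mul_mem hd hg) hd))

/-! ### monomial matrices -/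

theorem mono_dg (x y z : F) : Mono (dg x y z) := by
  refine ⟨![x, y, z], 1, ?_⟩
  ext i j
  fin_cases i <;> fin_cases j <;> simp [dg]

theorem mono_Sm : Mono (Sm F) := by
  refine ⟨![1, 1, -1], Equiv.swap 0 1, ?_⟩
  ext i j
  fin_cases i <;> fin_cases j <;> simp [Sm, Equiv.swap_apply_def]

theorem mono_Jm : Mono (Jm F) := by
  refine ⟨![-1, 1, 1], Equiv.swap 1 2, ?_⟩
  ext i j
  fin_cases i <;> fin_cases j <;> simp [Jm, Equiv.swap_apply_def]

theorem cj1 (x : Cor F) : cj 1 x = x := by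
  have : inn (1 : SL3 F) = 1 := rfl
  rw [cj, this, inv_one, one_mul, mul_one]

theorem mono_of {x : Cor F} {s : Bool} {A : M3 F} (hx : Is x s A) (h : Mono A) :
    Mono ((cj 1 x).m : M3 F) := by
  rw [cj1, hx.2]
  exact h

theorem mono_all {a b c d e : Cor F} {sa sb sc sd se : Bool} {x y z x' y' z' x'' y'' z'' : F}
    (ha : Is a sa (dg x y z)) (hb : Is b sb (dg x' y' z')) (hc : Is c sc (Sm F))
    (hd : Is d sd (Jm F)) (he : Is e se (dg x'' y'' z'')) :
    ∃ P : SL3 F, Mono ((cj P a).m : Matrix (Fin 3) (Fin 3) F) ∧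
      Mono ((cj P b).m : Matrix (Fin 3) (Fin 3) F) ∧
      Mono ((cj P c).m : Matrix (Fin 3) (Fin 3) F) ∧
      Mono ((cj P d).m : Matrix (Fin 3) (Fin 3) F) ∧
      Mono ((cj P e).m : Matrix (Fin 3) (Fin 3) F) :=
  ⟨1, mono_of ha (mono_dg _ _ _), mono_of hb (mono_dg _ _ _), mono_of hc mono_Sm,
    mono_of hd mono_Jm, mono_of he (mono_dg _ _ _)⟩

theorem cube_one {x : Cor F} (hx : Is x false !![0, 0, 1; -1, 0, 0; 0, -1, 0]) : x ^ 3 = 1 := by
  have h1 : Is (x * x) false !![0, -1, 0; 0, 0, -1; 1, 0, 0] := by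
    refine mi hx hx ?_
    ext i j
    fin_cases i <;> fin_cases j <;> simp [Matrix.mul_apply, Fin.sum_univ_three]
  have h2 : Is (x * x * x) false 1 := by
    refine mi h1 hx ?_
    ext i j
    fin_cases i <;> fin_cases j <;> simp [Matrix.mul_apply, Fin.sum_univ_three]
  have h3 : x ^ 3 = x * x * x := by rw [pow_succ, pow_two]
  rw [h3]
  exact h2.ext is_one

theorem ta_thm : TAStmt := by
  intro F _ a b c d e k hk ha hb hc hd he
  refine ⟨ha.1, hb.1, hc.1.trans hd.1.symm, he.1, ?_, ?_, mono_all ha hb hc hd he⟩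
  · refine cube_one (mi hc hd ?_)
    ext i j
    fin_cases i <;> fin_cases j <;> simp [Sm, Jm, Matrix.mul_apply, Fin.sum_univ_three]
  · intro h
    rw [hc.1] at h
    exact absurd h Bool.false_ne_true

theorem tb_thm : TBStmt := by
  intro F _ a b c d e k hk ha hb hc hd he hbc
  refine ⟨ha.1, hb.1, hc.1.trans hd.1.symm, he.1, ?_, ?_, mono_all ha hb hc hd he⟩
  · refine cube_one ?_
    have := mo hc hd Sm_sq (C := !![0, 0, 1; -1, 0, 0; 0, -1, 0]) (by
      ext i j
      fin_cases i <;> fin_cases j <;> simp [Sm, Jm, Matrix.mul_apply, Fin.sum_univ_three])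
    simpa using this
  · intro _ h3
    have h1 : Is (a * b) false (dg 1 k⁻¹ k) := by
      have := mo ha hb (A' := 1) (C := dg 1 k⁻¹ k) (by rw [dg_one, mul_one])
        (by rw [Matrix.transpose_one, one_mul])
      simpa using this
    have h2 := h1.pow_dg 3
    rw [h3] at h2
    have h4 := (h2.uniq is_one).2
    rw [← dg_one] at h4
    have hk3 : k ^ 3 = 1 := (dg_inj h4).2.2
    obtain ⟨z, hz⟩ := exists_is false (dg k k k) (by rw [dg_det, ← hk3]; ring)
    refine hbc z ⟨k, hk3, hz⟩ ?_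
    have h5 : Is (b * c) false !![0, 1, 0; k, 0, 0; 0, 0, -k⁻¹] := by
      have := mo hb hc (A' := dg 1 k k⁻¹) (C := !![0, 1, 0; k, 0, 0; 0, 0, -k⁻¹]) (by
        rw [dg_mul, ← dg_one]
        congr 1
        · rw [mul_one]
        · rw [inv_mul_cancel₀ hk]
        · rw [mul_inv_cancel₀ hk]) (by
        ext i j
        fin_cases i <;> fin_cases j <;> simp [dg, Sm, Matrix.mul_apply, Fin.sum_univ_three])
      simpa using this
    have h6 : Is (c * b) false !![0, k⁻¹, 0; 1, 0, 0; 0, 0, -k] := by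
      have := mo hc hb Sm_sq (C := !![0, k⁻¹, 0; 1, 0, 0; 0, 0, -k]) (by
        ext i j
        fin_cases i <;> fin_cases j <;> simp [dg, Sm, Matrix.mul_apply, Fin.sum_univ_three])
      simpa using this
    have h7 : Is (z * (c * b)) false !![0, 1, 0; k, 0, 0; 0, 0, -k⁻¹] := by
      refine mi hz h6 ?_
      have hk' : k * k = k⁻¹ := by
        rw [← mul_right_inj' hk, mul_inv_cancel₀ hk, ← hk3]
        ring
      ext i j
      fin_cases i <;> fin_cases j <;>
        simp [dg, Matrix.mul_apply, Fin.sum_univ_three, hk, hk']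
    exact h5.ext h7

end Pool.Agent.H54.SCG2
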