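import Pool.Agent.H24.SCG2.Base2

/-! Project SCG2: monomial strings do not generate (row T5N). -/

namespace Pool.Agent.H54.SCG2

open Matrix Pool.SCG

section mono

variable {F : Type*} [Field F]

/-- a monomial matrix -/
def MM (f : Fin 3 → F) (σ : Equiv.Perm (Fin 3)) : M3 F :=
  Matrix.of fun i j => if σ i = j then f i else 0

theorem MM_pos {f : Fin 3 → F} {σ : Equiv.Perm (Fin 3)} {i j : Fin 3} (h : σ i = j) :
    MM f σ i j = f i := if_pos h

theorem MM_neg {f : Fin 3 → F} {σ : Equiv.Perm (Fin 3)} {i j : Fin 3} (h : ¬ σ i = j) :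
    MM f σ i j = 0 := if_neg h

theorem MM_mul (f g : Fin 3 → F) (σ τ : Equiv.Perm (Fin 3)) :
    MM f σ * MM g τ = MM (fun i => f i * g (σ i)) (τ * σ) := by
  ext i k
  rw [Matrix.mul_apply, Finset.sum_eq_single (σ i)]
  · rw [MM_pos rfl]
    by_cases h : τ (σ i) = k
    · rw [MM_pos h, MM_pos (σ := τ * σ) h]
    · rw [MM_neg h, MM_neg (σ := τ * σ) h, mul_zero]
  · intro j _ hj
    rw [MM_neg (Ne.symm hj), zero_mul]
  · intro h
    exact absurd (Finset.mem_univ _) h

theorem MM_one : MM (fun _ => (1 : F)) 1 = 1 := by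
  ext i j
  by_cases h : i = j
  · rw [MM_pos (σ := 1) h, h, Matrix.one_apply_eq]
  · rw [MM_neg (σ := 1) h, Matrix.one_apply_ne h]

theorem MM_tr (f : Fin 3 → F) (σ : Equiv.Perm (Fin 3)) :
    (MM f σ).transpose = MM (fun i => f (σ⁻¹ i)) σ⁻¹ := by
  ext i j
  rw [Matrix.transpose_apply]
  by_cases h : σ j = i
  · have h' : σ⁻¹ i = j := by rw [← h]; exact Equiv.symm_apply_apply σ j
    rw [MM_pos h, MM_pos h', h']
  · have h' : ¬ σ⁻¹ i = j := fun h1 => h (by rw [← h1]; exact Equiv.apply_symm_apply σ i)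
    rw [MM_neg h, MM_neg h']

theorem MM_ne {f : Fin 3 → F} {σ : Equiv.Perm (Fin 3)} (h : (MM f σ).det = 1) (i : Fin 3) :
    f i ≠ 0 := by
  intro h0
  have : (MM f σ).det = 0 := by
    refine Matrix.det_eq_zero_of_row_eq_zero i fun j => ?_
    simp [MM, h0]
  rw [h] at this
  exact one_ne_zero this

theorem MM_adj {f : Fin 3 → F} {σ : Equiv.Perm (Fin 3)} (h : (MM f σ).det = 1) :
    (adjugate (MM f σ)).transpose = MM (fun i => (f i)⁻¹) σ := by
  have h1 : MM f σ * (MM (fun i => (f i)⁻¹) σ).transpose = 1 := by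
    rw [MM_tr, MM_mul, ← MM_one]
    congr 1
    · funext i
      have e : σ⁻¹ (σ i) = i := Equiv.symm_apply_apply σ i
      rw [e, mul_inv_cancel₀ (MM_ne h i)]
    · rw [inv_mul_cancel]
  rw [adj_unique h h1, Matrix.transpose_transpose]

/-- monomial elements -/
def Mn (x : Cor F) : Prop := ∃ f σ, (x.m : M3 F) = MM f σ

theorem mn_of {x : Cor F} (h : Mono (x.m : M3 F)) : Mn x := h

theorem mn_one : Mn (1 : Cor F) := ⟨fun _ => 1, 1, by rw [MM_one]; rfl⟩

theorem mn_mul {x y : Cor F} (hx : Mn x) (hy : Mn y) : Mn (x * y) := by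
  obtain ⟨f, σ, hf⟩ := hx
  obtain ⟨g, τ, hg⟩ := hy
  have hX : Is x x.s (MM f σ) := ⟨rfl, hf⟩
  rcases hs : y.s with _ | _
  · have hY : Is y false (MM g τ) := ⟨hs, hg⟩
    have := hX.mul_inner hY
    rw [MM_mul] at this
    exact ⟨_, _, this.2⟩
  · have hY : Is y true (MM g τ) := ⟨hs, hg⟩
    have := hX.mul_outer hY
    rw [MM_adj hX.det, MM_mul] at this
    exact ⟨_, _, this.2⟩

theorem mn_inv {x : Cor F} (hx : Mn x) : Mn x⁻¹ := by
  obtain ⟨f, σ, hf⟩ := hx
  have hX : Is x x.s (MM f σ) := ⟨rfl, hf⟩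
  have hd := hX.det
  -- a right inverse
  have key : ∃ y : Cor F, Mn y ∧ y * x = 1 := by
    rcases hs : x.s with _ | _
    · have hX' : Is x false (MM f σ) := ⟨hs, hf⟩
      obtain ⟨y, hy⟩ := exists_is false (adjugate (MM f σ)) (by
        rw [Matrix.det_adjugate, hd, one_pow])
      refine ⟨y, ⟨fun i => (f (σ⁻¹ i))⁻¹, σ⁻¹, ?_⟩, ?_⟩
      · rw [hy.2, ← Matrix.transpose_transpose (adjugate (MM f σ)), MM_adj hd, MM_tr]
      · have := hy.mul_inner hX'
        rw [adj_mul_self hd] at this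
        exact this.ext is_one
    · have hX' : Is x true (MM f σ) := ⟨hs, hf⟩
      obtain ⟨y, hy⟩ := exists_is true (MM f σ).transpose (by
        rw [Matrix.det_transpose, hd])
      refine ⟨y, ⟨_, _, by rw [hy.2, MM_tr]⟩, ?_⟩
      have h1 := hy.mul_outer hX'
      rw [Matrix.adjugate_transpose, Matrix.transpose_transpose, adj_mul_self hd] at h1
      exact (by simpa using h1 : Is (y * x) false 1).ext is_one
  obtain ⟨y, hy, h1⟩ := key
  rw [← eq_inv_of_mul_eq_one_left h1]
  exact hy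

/-- powers of inner monomial elements -/
theorem mn_pow {x : Cor F} {f : Fin 3 → F} {σ : Equiv.Perm (Fin 3)} (hx : Is x false (MM f σ))
    (n : ℕ) : ∃ g, Is (x ^ n) false (MM g (σ ^ n)) := by
  induction n with
  | zero =>
    refine ⟨fun _ => 1, ?_⟩
    rw [pow_zero, pow_zero, MM_one]
    exact is_one
  | succ n ih =>
    obtain ⟨g, hg⟩ := ih
    have h1 := hg.mul_inner hx
    rw [MM_mul] at h1
    rw [pow_succ, pow_succ' σ n]
    exact ⟨_, h1⟩

theorem perm6 (σ : Equiv.Perm (Fin 3)) : σ ^ 6 = 1 := by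
  have h := pow_card_eq_one (x := σ)
  rwa [Fintype.card_perm, Fintype.card_fin] at h

theorem MM_diag_pow {y : Cor F} {g : Fin 3 → F} (hy : Is y false (MM g 1)) (n : ℕ) :
    Is (y ^ n) false (MM (fun i => g i ^ n) 1) := by
  induction n with
  | zero =>
    simp only [pow_zero]
    rw [MM_one]
    exact is_one
  | succ n ih =>
    rw [pow_succ]
    have := ih.mul_inner hy
    rw [MM_mul] at this
    simpa [pow_succ] using this

/-- the order of an inner monomial element -/
theorem mn_order [Finite F] {x : Cor F} (hx : Mn x) (hs : x.s = false) :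
    x ^ (6 * (Nat.card F - 1)) = 1 := by
  obtain ⟨f, σ, hf⟩ := hx
  have hX : Is x false (MM f σ) := ⟨hs, hf⟩
  obtain ⟨g, hg⟩ := mn_pow hX 6
  rw [perm6] at hg
  have h1 := MM_diag_pow hg (Nat.card F - 1)
  rw [pow_mul]
  have h2 : (fun i => g i ^ (Nat.card F - 1)) = fun _ => (1 : F) := by
    funext i
    have hne := MM_ne hg.det i
    let _ : Fintype F := Fintype.ofFinite F
    rw [Nat.card_eq_fintype_card]
    exact FiniteField.pow_card_sub_one_eq_one _ hne
  rw [h2, MM_one] at h1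
  exact h1.ext is_one

end mono

/-- a transvection -/
def Tv (F : Type*) [Field F] (n : F) : SL3 F :=
  ⟨!![1, n, 0; 0, 1, 0; 0, 0, 1], by rw [Matrix.det_fin_three]; simp⟩

theorem Tv_pow {F : Type*} [Field F] (n : ℕ) : Tv F 1 ^ n = Tv F n := by
  induction n with
  | zero =>
    rw [pow_zero]
    apply Subtype.ext
    ext i j
    fin_cases i <;> fin_cases j <;> simp [Tv]
  | succ n ih =>
    rw [pow_succ, ih]
    apply Subtype.ext
    rw [Matrix.SpecialLinearGroup.coe_mul]
    ext i j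
    fin_cases i <;> fin_cases j <;> simp [Tv, Matrix.mul_apply, Fin.sum_univ_three, add_comm]

/-- if the generators are monomial, all elements of the group are -/
theorem mn_closure {F : Type*} [Field F] (P : SL3 F) (S : Set (Cor F))
    (h : ∀ s ∈ S, Mn (cj P s)) (x : Cor F) (hx : x ∈ Subgroup.closure S) : Mn (cj P x) := by
  induction hx using Subgroup.closure_induction with
  | mem y hy => exact h y hy
  | one =>
    rw [cj_one]
    exact mn_one
  | mul y w _ _ hy hw =>
    rw [cj_mul]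
    exact mn_mul hy hw
  | inv y _ hy =>
    have h1 : cj P y⁻¹ = (cj P y)⁻¹ := by
      simp only [cj]
      group
    rw [h1]
    exact mn_inv hy

theorem inn_pow {F : Type*} [Field F] (m : SL3 F) (n : ℕ) : inn m ^ n = inn (m ^ n) := by
  induction n with
  | zero => rfl
  | succ n ih => rw [pow_succ, ih, pow_succ, inn_mul]

theorem t5n_thm (hRELZ : RELZStmt) : T5NStmt := by
  intro F K _ _ _ _ _ hF hK a b c d e a' b' c' d' e' ha hb hc hd he hT
  refine ⟨Tv F 1, fun hmem => ?_⟩
  obtain ⟨x, hx, hr⟩ := rel_closure' (T := ({a', b', c', d', e'} : Set (Cor K)))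
    (S := ({a, b, c, d, e} : Set (MulAut (SL3 F)))) (by
      rintro s (rfl | rfl | rfl | rfl | rfl)
      · exact ⟨a', by simp, ha⟩
      · exact ⟨b', by simp, hb⟩
      · exact ⟨c', by simp, hc⟩
      · exact ⟨d', by simp, hd⟩
      · exact ⟨e', by simp, he⟩) _ hmem
  obtain ⟨z, hz, hxz⟩ := rel_left hRELZ (rel_inn (K := K) (Tv F 1)) hr
  obtain ⟨P, ma, mb, mc, md, me⟩ := hT.mono
  have hmon : Mn (cj P x) := by
    refine mn_closure P _ ?_ x hx
    rintro s (rfl | rfl | rfl | rfl | rfl)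
    · exact mn_of ma
    · exact mn_of mb
    · exact mn_of mc
    · exact mn_of md
    · exact mn_of me
  have hs : x.s = false := by
    rw [hxz, Cor.mul_s, inn_s, zs_s hz]
    rfl
  have hs' : (cj P x).s = false := by
    simp [cj, hs]
  have h1 := mn_order hmon hs'
  have h2 : x ^ (6 * (Nat.card K - 1)) = 1 := by
    apply cj_injective P
    rw [cj_one, ← h1, ← cjE_apply, ← cjE_apply, map_pow]
  have hcm : Commute (inn (iS F K (Tv F 1))) z := (zs_comm hz rfl).symm
  have hz1 : z ^ (6 * (Nat.card K - 1)) = 1 := by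
    have e : 6 * (Nat.card K - 1) = 3 * (2 * (Nat.card K - 1)) := by ring
    rw [e, pow_mul, zs_cube hz, one_pow]
  rw [hxz, hcm.mul_pow, hz1, mul_one, inn_pow, ← map_pow, Tv_pow] at h2
  have h3 : Tv F ((6 * (Nat.card K - 1) : ℕ) : F) = 1 := by
    apply iS_injective (F := F) (K := K)
    rw [map_one]
    exact congrArg Cor.m h2
  have h4 : ((6 * (Nat.card K - 1) : ℕ) : F) = 0 := by
    have := congrArg (fun m : SL3 F => (m : M3 F) 0 1) h3
    simpa [Tv] using this
  have h5 : ((6 * (Nat.card K - 1) : ℕ) : K) = 0 := by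
    have := congrArg (algebraMap F K) h4
    rwa [map_natCast, map_zero] at this
  have hc0 : (Nat.card K : K) = 0 := by
    let _ : Fintype K := Fintype.ofFinite K
    rw [Nat.card_eq_fintype_card]
    exact FiniteField.cast_card_eq_zero K
  have hpos : 1 ≤ Nat.card K := Nat.card_pos
  have h6 : (6 : K) = 0 := by
    rw [Nat.cast_mul, Nat.cast_sub hpos, hc0] at h5
    push_cast at h5
    linear_combination -h5
  have h7 : Nat.card K = 6 * (Nat.card K / 6) + 1 := by
    have := hK.1
    omega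
  rw [h7] at hc0
  push_cast at hc0
  rw [h6, zero_mul, zero_add] at hc0
  exact one_ne_zero hc0

end Pool.Agent.H54.SCG2
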