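import Pool.Agent.H24.SCG2.Stmts2

/-! Project SCG2: windows of a string C-group (row WIN). -/

namespace Pool.Agent.H54.SCG2

open Pool.SCG

theorem win_thm : WINStmt := by
  intro G _ r ρ hρ hadj i j k l m hij hjk hkl hlm
  have h2 : ∀ t, ρ t ≠ 1 ∧ ρ t * ρ t = 1 := by
    intro t
    have h := hρ.invol t
    refine ⟨?_, ?_⟩
    · intro h1
      rw [h1, orderOf_one] at h
      exact absurd h (by norm_num)
    · rw [← pow_two, ← h]
      exact pow_orderOf_eq_one _
  -- disjoint sets of generators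
  have hdis : ∀ I J : Set (Fin r), (∀ t ∈ I, t ∈ J → False) →
      ∀ y ∈ Subgroup.closure (ρ '' I), y ∈ Subgroup.closure (ρ '' J) → y = 1 := by
    intro I J hIJ y hyI hyJ
    have h1 : y ∈ Subgroup.closure (ρ '' I) ⊓ Subgroup.closure (ρ '' J) := ⟨hyI, hyJ⟩
    rw [hρ.inter] at h1
    have h3 : I ∩ J = ∅ := by
      ext t
      constructor
      · rintro ⟨h3, h4⟩
        exact hIJ t h3 h4
      · intro h3
        exact absurd h3 (Set.notMem_empty t)
    rwa [h3, Set.image_empty, Subgroup.closure_empty, Subgroup.mem_bot] at h1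
  have e1 : ∀ a : Fin r, ({ρ a} : Set G) = ρ '' {a} := fun a => by rw [Set.image_singleton]
  have e2 : ∀ a b : Fin r, ({ρ a, ρ b} : Set G) = ρ '' {a, b} := fun a b => by
    rw [Set.image_pair]
  have e3 : ∀ a b c : Fin r, ({ρ a, ρ b, ρ c} : Set G) = ρ '' {a, b, c} := fun a b c => by
    rw [Set.image_insert_eq, Set.image_pair]
  have e4 : ∀ a b c d : Fin r, ({ρ a, ρ b, ρ c, ρ d} : Set G) = ρ '' {a, b, c, d} :=
    fun a b c d => by rw [Set.image_insert_eq, Set.image_insert_eq, Set.image_pair]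
  have hne : ∀ a b : Fin r, a.val < b.val → a ≠ b := by
    rintro a _ h rfl
    exact lt_irrefl _ h
  refine ⟨h2 i, h2 j, h2 k, h2 l, h2 m, hρ.comm _ _ (by omega), hρ.comm _ _ (by omega),
    hρ.comm _ _ (by omega), hρ.comm _ _ (by omega), hρ.comm _ _ (by omega),
    hρ.comm _ _ (by omega), hadj _ _ hij, hadj _ _ hjk, hadj _ _ hkl, hadj _ _ hlm,
    ?_, ?_, ?_, ?_⟩
  · intro h
    rw [e4] at h
    refine (h2 m).1 (hdis {m} {i, j, k, l} ?_ (ρ m) ?_ h)
    · rintro t rfl (rfl | rfl | rfl | rfl) <;> omega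
    · rw [← e1]
      exact Subgroup.subset_closure rfl
  · intro h
    rw [e4] at h
    refine (h2 i).1 (hdis {i} {j, k, l, m} ?_ (ρ i) ?_ h)
    · rintro t rfl (rfl | rfl | rfl | rfl) <;> omega
    · rw [← e1]
      exact Subgroup.subset_closure rfl
  · intro x hx hx'
    rw [e2] at hx
    rw [e3] at hx'
    refine hdis {i, j} {k, l, m} ?_ x hx hx'
    rintro t (rfl | rfl) (rfl | rfl | rfl) <;> omega
  · intro x hx hx'
    rw [e2] at hx
    rw [e3] at hx'
    refine hdis {l, m} {i, j, k} ?_ x hx hx'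
    rintro t (rfl | rfl) (rfl | rfl | rfl) <;> omega

end Pool.Agent.H54.SCG2
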