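import Pool.Agent.H24.SCG2.Stmts1

/-! Project SCG2: rescaling of `b` when `d` and `e` are inner (row RSB). -/

namespace Pool.Agent.H54.SCG2

open Matrix Pool.SCG

variable {F : Type*} [Field F]

theorem zs_one : (1 : Cor F) ∈ Zs F := by
  refine ⟨1, one_pow 3, ?_⟩
  rw [dg_one]
  exact is_one

theorem zs_mul {x y : Cor F} (hx : x ∈ Zs F) (hy : y ∈ Zs F) : x * y ∈ Zs F := by
  obtain ⟨u, hu, hx⟩ := hx
  obtain ⟨v, hv, hy⟩ := hy
  refine ⟨u * v, by rw [mul_pow, hu, hv, one_mul], ?_⟩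
  have := hx.mul_inner hy
  rwa [dg_mul] at this

theorem zs_inv {x : Cor F} (hx : x ∈ Zs F) : x⁻¹ ∈ Zs F := by
  obtain ⟨u, hu, hx⟩ := hx
  have h2 : (u ^ 2) ^ 3 = 1 := by rw [← pow_mul, mul_comm, pow_mul, hu, one_pow]
  have h3 : u ^ 2 * u = 1 := by rw [← pow_succ, hu]
  obtain ⟨y, hy⟩ := exists_is false (dg (u ^ 2) (u ^ 2) (u ^ 2)) (by rw [dg_det, ← h2]; ring)
  have h4 : y * x = 1 := by
    have := hy.mul_inner hx
    rw [dg_mul, h3, dg_one] at this
    exact this.ext is_one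
  have h5 : x⁻¹ = y := (eq_inv_of_mul_eq_one_left h4).symm
  rw [h5]
  exact ⟨u ^ 2, h2, hy⟩

theorem dg_scal (u : F) : dg u u u = u • (1 : M3 F) := by
  ext i j
  fin_cases i <;> fin_cases j <;> simp [dg]

/-- scalars commute with inner elements -/
theorem zs_comm_inner {w x : Cor F} (hw : w ∈ Zs F) (hx : x.s = false) : w * x = x * w := by
  obtain ⟨u, hu, hw⟩ := hw
  have hx' : Is x false (x.m : M3 F) := ⟨hx, rfl⟩
  rw [comm_inner_iff hw hx', dg_scal, Matrix.smul_mul, Matrix.mul_smul, Matrix.one_mul,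
    Matrix.mul_one]

/-- scalars and outer elements -/
theorem zs_outer {w x : Cor F} (hw : w ∈ Zs F) (hx : x.s = true) : w * (x * w) = x := by
  obtain ⟨u, hu, hw⟩ := hw
  have hx' : Is x true (x.m : M3 F) := ⟨hx, rfl⟩
  have h2 : (u ^ 2) ^ 3 = 1 := by rw [← pow_mul, mul_comm, pow_mul, hu, one_pow]
  have h3 : u * u ^ 2 = 1 := by rw [mul_comm, ← pow_succ, hu]
  have h4 : Is (x * w) true ((x.m : M3 F) * dg u u u) := hx'.mul_inner hw
  have h5 := hw.mul_outer' h4 (A' := dg (u ^ 2) (u ^ 2) (u ^ 2)) (by rw [dg_mul, h3, dg_one])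
  have h6 : (dg (u ^ 2) (u ^ 2) (u ^ 2)).transpose * ((x.m : M3 F) * dg u u u) =
      (x.m : M3 F) := by
    rw [dg_transpose, dg_scal, dg_scal, Matrix.smul_mul, Matrix.mul_smul, Matrix.one_mul,
      Matrix.mul_one, smul_smul, mul_comm (u ^ 2) u, h3, one_smul]
  rw [h6] at h5
  exact h5.ext hx'

/-- scalars and outer elements -/
theorem zs_outer' {w x : Cor F} (hw : w ∈ Zs F) (hx : x.s = true) : w * x = x * w⁻¹ := by
  have h := zs_outer hw hx
  rw [← mul_assoc] at h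
  exact eq_mul_inv_of_mul_eq h

theorem rsb_thm : RSBStmt := by
  intro F _ a b c d e w h hb hd he hw
  have hZ : ∀ (S : Set (Cor F)), ∀ z ∈ Zs F, z ∈ Subgroup.closure (S ∪ Zs F) :=
    fun S z hz => Subgroup.subset_closure (Or.inr hz)
  have hS : ∀ (S : Set (Cor F)), ∀ z ∈ S, z ∈ Subgroup.closure (S ∪ Zs F) :=
    fun S z hz => Subgroup.subset_closure (Or.inl hz)
  -- noncommutation
  have key : ∀ x : Cor F, (∀ z ∈ Zs F, x * b ≠ z * (b * x)) →
      ∀ z ∈ Zs F, x * (b * w) ≠ z * (b * w * x) := by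
    intro x hx z hz h1
    rcases hxs : x.s with _ | _
    · -- inner
      apply hx z hz
      have h2 := zs_comm_inner hw hxs
      rw [mul_assoc b w x, h2, ← mul_assoc b x w, ← mul_assoc z, ← mul_assoc x] at h1
      exact mul_right_cancel h1
    · -- outer
      have h2 := zs_outer' hw hxs
      have hs : (b * x).s = false := by rw [Cor.mul_s, hb, hxs]; rfl
      have hi := zs_inv hw
      apply hx (z * (w⁻¹ * w⁻¹)) (zs_mul hz (zs_mul hi hi))
      rw [mul_assoc b w x, h2, ← mul_assoc b x, ← mul_assoc z, ← mul_assoc x] at h1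
      have h3 : x * b = z * (b * x) * w⁻¹ * w⁻¹ := by
        rw [← h1, mul_inv_cancel_right]
      have h4 : b * x * w⁻¹ * w⁻¹ = w⁻¹ * w⁻¹ * (b * x) := by
        rw [← zs_comm_inner hi hs, mul_assoc (w⁻¹), ← zs_comm_inner hi hs, mul_assoc]
      rw [h3, mul_assoc z (w⁻¹ * w⁻¹), ← h4]
      simp only [mul_assoc]
  have key2 : ∀ x : Cor F, (∀ z ∈ Zs F, b * x ≠ z * (x * b)) →
      ∀ z ∈ Zs F, b * w * x ≠ z * (x * (b * w)) := by
    intro x hx z hz h1
    refine key x ?_ z⁻¹ (zs_inv hz) ?_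
    · intro z' hz' h2
      apply hx z'⁻¹ (zs_inv hz')
      rw [h2, inv_mul_cancel_left]
    · rw [h1, inv_mul_cancel_left]
  refine ⟨h.ia, ⟨?_, ?_⟩, h.ic, h.id, h.ie, h.ac, h.ad, h.ae, ⟨1, zs_one, ?_⟩, fun _ => ?_, ?_,
    h.ce, key a h.ab, key2 c h.bc, h.cd, h.de, fun h1 => h.v1 ?_, fun h1 => h.v2 ?_,
    fun x hx hx' => h.v3 x ?_ hx', fun x hx hx' => h.v4 x hx ?_⟩
  · intro h1
    have h2 : (b * w).s = true := by
      obtain ⟨u, -, hw⟩ := hw
      rw [Cor.mul_s, hb, hw.1]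
      rfl
    rw [h1] at h2
    exact Bool.false_ne_true h2
  · rw [mul_assoc, zs_outer hw hb, h.ib.2]
  · have h1 : b * d = d * b := h.bdx (Or.inr (Or.inr (Or.inl hd)))
    rw [one_mul, mul_assoc, zs_comm_inner hw hd, ← mul_assoc, h1, mul_assoc]
  · have h1 : b * d = d * b := h.bdx (Or.inr (Or.inr (Or.inl hd)))
    rw [mul_assoc, zs_comm_inner hw hd, ← mul_assoc, h1, mul_assoc]
  · rw [mul_assoc, zs_comm_inner hw he, ← mul_assoc, h.be, mul_assoc]
  · refine (Subgroup.closure_le _).2 ?_ h1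
    rintro y ((rfl | rfl | rfl | rfl) | hy)
    · exact hS _ _ (by simp)
    · exact Subgroup.mul_mem _ (hS _ _ (by simp)) (hZ _ _ hw)
    · exact hS _ _ (by simp)
    · exact hS _ _ (by simp)
    · exact hZ _ _ hy
  · refine (Subgroup.closure_le _).2 ?_ h1
    rintro y ((rfl | rfl | rfl | rfl) | hy)
    · exact Subgroup.mul_mem _ (hS _ _ (by simp)) (hZ _ _ hw)
    · exact hS _ _ (by simp)
    · exact hS _ _ (by simp)
    · exact hS _ _ (by simp)
    · exact hZ _ _ hy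
  · refine (Subgroup.closure_le _).2 ?_ hx
    rintro y ((rfl | rfl) | hy)
    · exact hS _ _ (by simp)
    · exact Subgroup.mul_mem _ (hS _ _ (by simp)) (hZ _ _ hw)
    · exact hZ _ _ hy
  · refine (Subgroup.closure_le _).2 ?_ hx'
    rintro y ((rfl | rfl | rfl) | hy)
    · exact hS _ _ (by simp)
    · exact Subgroup.mul_mem _ (hS _ _ (by simp)) (hZ _ _ hw)
    · exact hS _ _ (by simp)
    · exact hZ _ _ hy

end Pool.Agent.H54.SCG2
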